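import Pool.Agent.MSB.St
import Pool.Agent.Mir.Prob

/-!
# The mirror model is sub-ballistic: all rays (helper98)
-/

set_option autoImplicit false

open MeasureTheory Filter Mir

noncomputable section

namespace Pool.Agent.MSB

/-- almost surely every ray is sub-ballistic, with a rate -/
def St_All : Prop := ∀ p : ℝ, 0 < p → p < 1 → ∀ a : ℝ, 13 / 14 < a → ∀ᵐ ω ∂(mir p),
  ∀ s : (ℤ × ℤ) × Dir, Tendsto (fun n : ℕ => (nm (ray ω s n).1 : ℝ) / (n : ℝ) ^ a) atTop (nhds 0)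

namespace Allx

private def Q (a : ℝ) (ω : ℤ × ℤ → Fin 3) (s : (ℤ × ℤ) × Dir) : Prop :=
  Tendsto (fun n : ℕ => (nm (ray ω s n).1 : ℝ) / (n : ℝ) ^ a) atTop (nhds 0)

private theorem nm_rf (s : (ℤ × ℤ) × Dir) : nm (rfS s).1 = nm s.1 := by
  simp [nm, rfS, Int.natAbs_neg]

private theorem nm_sw (s : (ℤ × ℤ) × Dir) : nm (swS s).1 = nm s.1 := by
  simp [nm, swS, max_comm]

private theorem nm_tr (z : ℤ × ℤ) (s : (ℤ × ℤ) × Dir) : nm s.1 ≤ nm (trS z s).1 + nm z := by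
  obtain ⟨⟨x, y⟩, d⟩ := s
  obtain ⟨u, v⟩ := z
  simp only [nm, trS, Prod.mk_add_mk]
  omega

private theorem q_rf {a : ℝ} {ω : ℤ × ℤ → Fin 3} {s : (ℤ × ℤ) × Dir} (h : Q a (rf ω) (rfS s)) :
    Q a ω s := by
  unfold Q at h ⊢
  refine h.congr fun n => ?_
  rw [ray_rf, nm_rf]

private theorem q_sw {a : ℝ} {ω : ℤ × ℤ → Fin 3} {s : (ℤ × ℤ) × Dir} (h : Q a (sw ω) (swS s)) :
    Q a ω s := by
  unfold Q at h ⊢
  refine h.congr fun n => ?_
  rw [ray_sw, nm_sw]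

private theorem q_tr {a : ℝ} (ha : 0 < a) {ω : ℤ × ℤ → Fin 3} {s : (ℤ × ℤ) × Dir} (z : ℤ × ℤ)
    (h : Q a (tr z ω) (trS z s)) : Q a ω s := by
  unfold Q at h ⊢
  have h1 : Tendsto (fun n : ℕ => (nm z : ℝ) / (n : ℝ) ^ a) atTop (nhds 0) :=
    Tendsto.div_atTop tendsto_const_nhds
      ((tendsto_rpow_atTop ha).comp tendsto_natCast_atTop_atTop)
  have h2 := h.add h1
  rw [add_zero] at h2
  refine squeeze_zero (fun n => by positivity) (fun n => ?_) h2
  rw [← add_div, ray_tr]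
  have h3 : (nm (ray ω s n).1 : ℝ) ≤ nm (trS z (ray ω s n)).1 + nm z := by
    exact_mod_cast nm_tr z (ray ω s n)
  gcongr

end Allx

open Allx in
theorem thm_All (h : St_Asy) : St_All := by
  intro p hp hp1 a ha
  have ha0 : 0 < a := by linarith
  have h0 : ∀ᵐ ω ∂(mir p), Q a ω s0 := h p hp hp1 a ha
  have hN : ∀ v : ℤ × ℤ, ∀ᵐ ω ∂(mir p), Q a ω (v, Dir.N) := by
    intro v
    have h1 := (tr_preserving hp.le hp1.le ((0, 1) - v)).quasiMeasurePreserving.ae h0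
    filter_upwards [h1] with ω hω
    refine q_tr ha0 ((0, 1) - v) ?_
    have : trS ((0, 1) - v) (v, Dir.N) = s0 := by simp [trS, s0]
    rw [this]
    exact hω
  have hE : ∀ v : ℤ × ℤ, ∀ᵐ ω ∂(mir p), Q a ω (v, Dir.E) := by
    intro v
    have h1 := (sw_preserving hp.le hp1.le).quasiMeasurePreserving.ae (hN (v.2, v.1))
    filter_upwards [h1] with ω hω
    exact q_sw hω
  have hW : ∀ v : ℤ × ℤ, ∀ᵐ ω ∂(mir p), Q a ω (v, Dir.W) := by
    intro v
    have h1 := (rf_preserving hp.le hp1.le).quasiMeasurePreserving.ae (hE (-v.1, v.2))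
    filter_upwards [h1] with ω hω
    exact q_rf hω
  have hS : ∀ v : ℤ × ℤ, ∀ᵐ ω ∂(mir p), Q a ω (v, Dir.S) := by
    intro v
    have h1 := (sw_preserving hp.le hp1.le).quasiMeasurePreserving.ae (hW (v.2, v.1))
    filter_upwards [h1] with ω hω
    exact q_sw hω
  have : Countable ((ℤ × ℤ) × Dir) := countable_state
  rw [ae_all_iff]
  rintro ⟨v, d⟩
  cases d
  · exact hN v
  · exact hE v
  · exact hS v
  · exact hW v

end Pool.Agent.MSB
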