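import Pool.Agent.MSB.St

/-!
# MSB, module Asy: the almost sure bound
-/

set_option autoImplicit false

open MeasureTheory Filter Mir

noncomputable section

namespace Pool.Agent.MSB

namespace Asyx

private theorem nm_add (v : ℤ × ℤ) (d : Dir) : nm (v + vec d) ≤ nm v + 1 := by
  obtain ⟨x, y⟩ := v
  cases d <;> simp only [nm, vec, Prod.mk_add_mk] <;> omega

private theorem nm_ray (ω : ℤ × ℤ → Fin 3) (i : ℕ) : nm (ray ω s0 i).1 ≤ i + 1 := by
  induction i with
  | zero => simp [ray, s0, nm]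
  | succ i ih =>
    rw [ray_succ]
    have h := nm_add (ray ω s0 i).1 (turn (ω (ray ω s0 i).1) (ray ω s0 i).2)
    unfold step
    dsimp only
    omega

private theorem mx_le (ω : ℤ × ℤ → Fin 3) (t : ℕ) : mx ω s0 t ≤ t + 1 := by
  unfold mx
  refine Finset.sup_le fun i hi => ?_
  have h1 := nm_ray ω i
  have h2 := Finset.mem_range.mp hi
  omega

private theorem le_mx (ω : ℤ × ℤ → Fin 3) {i t : ℕ} (h : i ≤ t) :
    nm (ray ω s0 i).1 ≤ mx ω s0 t := by
  unfold mx
  exact Finset.le_sup (f := fun i => nm (ray ω s0 i).1) (Finset.mem_range.mpr (by omega))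

private theorem meas_nm (i : ℕ) : Measurable fun ω : ℤ × ℤ → Fin 3 => nm (ray ω s0 i).1 := by
  refine measurable_to_countable' fun m => ?_
  exact meas_ray_prop s0 i fun u => nm u.1 = m

private theorem meas_mx (t : ℕ) : Measurable fun ω : ℤ × ℤ → Fin 3 => mx ω s0 t := by
  induction t with
  | zero =>
    have h : (fun ω : ℤ × ℤ → Fin 3 => mx ω s0 0) = fun ω => nm (ray ω s0 0).1 := by
      funext ω
      simp [mx]
    rw [h]
    exact meas_nm 0
  | succ t ih =>
    have h : (fun ω : ℤ × ℤ → Fin 3 => mx ω s0 (t + 1)) =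
        fun ω => max (nm (ray ω s0 (t + 1)).1) (mx ω s0 t) := by
      funext ω
      unfold mx
      rw [Finset.range_add_one (n := t + 1), Finset.sup_insert]
    rw [h]
    exact (meas_nm (t + 1)).max ih

private theorem int_mx {p : ℝ} (h0 : 0 ≤ p) (h1 : p ≤ 1) (t : ℕ) :
    Integrable (fun ω => (mx ω s0 t : ℝ)) (mir p) := by
  have hP := mir_isProb h0 h1
  refine Integrable.of_bound (C := (t : ℝ) + 1) ?_ ?_
  · exact (measurable_from_nat.comp (meas_mx t)).aestronglyMeasurable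
  · filter_upwards with ω
    rw [Real.norm_eq_abs, abs_of_nonneg (Nat.cast_nonneg _)]
    exact_mod_cast mx_le ω t

end Asyx

theorem thm_Asy (hE : St_Emx) : St_Asy := by
  intro p hp0 hp1 a ha
  have hP := mir_isProb hp0.le hp1.le
  obtain ⟨C, hC⟩ := hE p hp0 hp1
  set b : ℝ := (13 / 14 + a) / 2 with hb
  have hb1 : 13 / 14 < b := by rw [hb]; linarith
  have hb2 : b < a := by rw [hb]; linarith
  have hb0 : 0 < b := by linarith
  set r : ℝ := (2 : ℝ) ^ (13 / 14 - b) with hr
  have hr0 : 0 < r := by positivity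
  have hr1 : r < 1 := Real.rpow_lt_one_of_one_lt_of_neg (by norm_num) (by linarith)
  set X : ℕ → Set (ℤ × ℤ → Fin 3) := fun j => {ω | ((2 : ℝ) ^ j) ^ b ≤ (mx ω s0 (2 ^ j) : ℝ)}
    with hX
  have hXb : ∀ j, (mir p).real (X j) ≤ |C| * r ^ j := by
    intro j
    have h1 := mul_meas_ge_le_integral_of_nonneg (μ := mir p)
      (f := fun ω => (mx ω s0 (2 ^ j) : ℝ)) (ae_of_all _ fun ω => Nat.cast_nonneg _)
      (Asyx.int_mx hp0.le hp1.le (2 ^ j)) (((2 : ℝ) ^ j) ^ b)
    have h2 := hC (2 ^ j) (Nat.one_le_two_pow)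
    have h3 : (0 : ℝ) < ((2 : ℝ) ^ j) ^ b := by positivity
    have h4 : ((2 : ℝ) ^ j) ^ b * (mir p).real (X j) ≤ |C| * ((2 : ℝ) ^ j) ^ (13 / 14 : ℝ) := by
      refine h1.trans (h2.trans ?_)
      push_cast
      exact mul_le_mul_of_nonneg_right (le_abs_self C) (by positivity)
    have h5 : ((2 : ℝ) ^ j) ^ (13 / 14 : ℝ) = ((2 : ℝ) ^ j) ^ b * r ^ j := by
      have e1 : r ^ j = ((2 : ℝ) ^ j) ^ (13 / 14 - b) := by
        rw [hr, ← Real.rpow_natCast, ← Real.rpow_mul (by norm_num), mul_comm,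
          Real.rpow_mul (by norm_num), Real.rpow_natCast]
      rw [e1, ← Real.rpow_add (by positivity)]
      congr 1
      ring
    rw [h5] at h4
    have h6 : ((2 : ℝ) ^ j) ^ b * (mir p).real (X j) ≤ ((2 : ℝ) ^ j) ^ b * (|C| * r ^ j) := by
      linarith
    exact le_of_mul_le_mul_left h6 h3
  have hsum : ∑' j, (mir p) (X j) ≠ ⊤ := by
    have hs : Summable fun j : ℕ => |C| * r ^ j :=
      (summable_geometric_of_lt_one hr0.le hr1).mul_left _
    refine ne_top_of_le_ne_top hs.tsum_ofReal_ne_top ?_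
    refine ENNReal.tsum_le_tsum fun j => ?_
    rw [← ofReal_measureReal]
    exact ENNReal.ofReal_le_ofReal (hXb j)
  filter_upwards [ae_eventually_notMem hsum] with ω hω
  obtain ⟨J, hJ⟩ := eventually_atTop.mp hω
  have hup : ∀ᶠ n : ℕ in atTop, (nm (ray ω s0 n).1 : ℝ) / (n : ℝ) ^ a ≤
      2 ^ b * (n : ℝ) ^ (b - a) := by
    filter_upwards [eventually_gt_atTop (2 ^ J)] with n hn
    have hn1 : 1 ≤ n := (Nat.one_le_two_pow).trans hn.le
    set j := Nat.clog 2 n with hj
    have h1 : n ≤ 2 ^ j := Nat.le_pow_clog (by norm_num) n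
    have hJj : J ≤ j := by
      by_contra h
      have : 2 ^ j ≤ 2 ^ J := Nat.pow_le_pow_right (by norm_num) (by omega)
      omega
    have h2 : 2 ^ j ≤ 2 * n := by
      rcases Nat.lt_or_ge 1 n with h | h
      · have h3 := Nat.pow_pred_clog_lt_self (b := 2) (by norm_num) h
        have h4 : 0 < j := Nat.clog_pos (by norm_num) h
        obtain ⟨i, hi⟩ : ∃ i, j = i + 1 := ⟨j - 1, by omega⟩
        rw [← hj, hi] at h3
        simp only [Nat.pred_eq_sub_one, Nat.add_sub_cancel] at h3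
        rw [hi, pow_succ]
        omega
      · have h3 : n = 1 := by omega
        rw [hj, h3]
        simp
    have h3 : (mx ω s0 (2 ^ j) : ℝ) < ((2 : ℝ) ^ j) ^ b := by
      have := hJ j hJj
      simpa [hX] using this
    have h4 : (nm (ray ω s0 n).1 : ℝ) ≤ 2 ^ b * (n : ℝ) ^ b := by
      calc (nm (ray ω s0 n).1 : ℝ) ≤ (mx ω s0 (2 ^ j) : ℝ) := by
            exact_mod_cast Asyx.le_mx ω h1
        _ ≤ ((2 : ℝ) ^ j) ^ b := h3.le
        _ ≤ (2 * (n : ℝ)) ^ b := by
            refine Real.rpow_le_rpow (by positivity) ?_ hb0.le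
            exact_mod_cast h2
        _ = 2 ^ b * (n : ℝ) ^ b := Real.mul_rpow (by norm_num) (by positivity)
    have hn0 : (0 : ℝ) < n := by exact_mod_cast hn1
    rw [div_le_iff₀ (by positivity), mul_assoc, ← Real.rpow_add hn0]
    simpa using h4
  have hlim : Tendsto (fun n : ℕ => (2 : ℝ) ^ b * (n : ℝ) ^ (b - a)) atTop (nhds 0) := by
    have h1 : Tendsto (fun x : ℝ => x ^ (-(a - b))) atTop (nhds 0) :=
      tendsto_rpow_neg_atTop (by linarith)
    have h2 := (h1.comp tendsto_natCast_atTop_atTop).const_mul ((2 : ℝ) ^ b)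
    rw [mul_zero] at h2
    refine h2.congr fun n => ?_
    simp only [Function.comp, neg_sub]
  exact squeeze_zero' (Eventually.of_forall fun n => by positivity) hup hlim

end Pool.Agent.MSB
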