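import Pool.Agent.MSB.St
import Pool.Agent.Mir.Prob
import Pool.Agent.Mir.Det

/-!
# Mean maximal displacement
-/

set_option autoImplicit false

open MeasureTheory Filter Mir

noncomputable section

namespace Pool.Agent.MSB

namespace Emxx

/-- a new maximum at time `m + 1` -/
def Nw (e : Dir) (m : ℕ) : Set (ℤ × ℤ → Fin 3) :=
  {ω | ∀ i ≤ m, ht e (ray ω s0 i).1 < ht e (ray ω s0 (m + 1)).1}

lemma meas_ht (e : Dir) (i : ℕ) :
    Measurable fun ω : ℤ × ℤ → Fin 3 => ht e (ray ω s0 i).1 := by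
  refine measurable_to_countable' fun x => ?_
  exact meas_ray_prop s0 i fun s => ht e s.1 = x

lemma meas_Nw (e : Dir) (m : ℕ) : MeasurableSet (Nw e m) := by
  have : Nw e m = ⋂ i : ℕ, ⋂ _ : i ≤ m,
      {ω : ℤ × ℤ → Fin 3 | ht e (ray ω s0 i).1 < ht e (ray ω s0 (m + 1)).1} := by
    ext ω
    simp [Nw]
  rw [this]
  exact MeasurableSet.iInter fun i => MeasurableSet.iInter fun _ =>
    measurableSet_lt (meas_ht e i) (meas_ht e (m + 1))

lemma ht_step (e : Dir) (ω : ℤ × ℤ → Fin 3) (n : ℕ) :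
    ht e (ray ω s0 (n + 1)).1 ≤ ht e (ray ω s0 n).1 + 1 := by
  rw [ray_succ]
  set s := ray ω s0 n
  have h : (step ω s).1 = s.1 + vec (turn (ω s.1) s.2) := rfl
  rw [h]
  generalize turn (ω s.1) s.2 = d
  cases e <;> cases d <;> simp [ht, vec]

/-- the number of new maxima up to time `t` -/
def cn (e : Dir) (t : ℕ) (ω : ℤ × ℤ → Fin 3) : ℝ :=
  ∑ m ∈ Finset.range t, (Nw e m).indicator (fun _ => (1 : ℝ)) ω

lemma cn_nonneg (e : Dir) (t : ℕ) (ω : ℤ × ℤ → Fin 3) : 0 ≤ cn e t ω :=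
  Finset.sum_nonneg fun _ _ => Set.indicator_nonneg (fun _ _ => zero_le_one) ω

lemma ht_le (e : Dir) (ω : ℤ × ℤ → Fin 3) (t : ℕ) :
    ∀ i ≤ t, (ht e (ray ω s0 i).1 : ℝ) ≤ ht e (0, 1) + cn e t ω := by
  induction t with
  | zero =>
    intro i hi
    obtain rfl : i = 0 := by omega
    simp [cn]
  | succ t ih =>
    have hc : cn e (t + 1) ω = cn e t ω + (Nw e t).indicator (fun _ => (1 : ℝ)) ω := by
      rw [cn, Finset.sum_range_succ, cn]
    have h0 : 0 ≤ (Nw e t).indicator (fun _ => (1 : ℝ)) ω :=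
      Set.indicator_nonneg (fun _ _ => zero_le_one) ω
    intro i hi
    rcases Nat.lt_or_ge i (t + 1) with h | h
    · have := ih i (by omega)
      rw [hc]
      linarith
    · obtain rfl : i = t + 1 := by omega
      by_cases hN : ω ∈ Nw e t
      · have h1 := ih t le_rfl
        have h2 : (ht e (ray ω s0 (t + 1)).1 : ℝ) ≤ ht e (ray ω s0 t).1 + 1 := by
          exact_mod_cast ht_step e ω t
        rw [hc, Set.indicator_of_mem hN]
        linarith
      · have h1 : ∃ j ≤ t, ht e (ray ω s0 (t + 1)).1 ≤ ht e (ray ω s0 j).1 := by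
          simp only [Nw, Set.mem_ofPred_eq, not_forall, not_lt] at hN
          obtain ⟨j, hj, h⟩ := hN
          exact ⟨j, hj, h⟩
        obtain ⟨j, hj, h2⟩ := h1
        have h3 := ih j hj
        have h4 : (ht e (ray ω s0 (t + 1)).1 : ℝ) ≤ ht e (ray ω s0 j).1 := by exact_mod_cast h2
        rw [hc]
        linarith

lemma nm_le (ω : ℤ × ℤ → Fin 3) (t i : ℕ) (hi : i ≤ t) :
    (nm (ray ω s0 i).1 : ℝ) ≤ 1 + ∑ e : Dir, cn e t ω := by
  have hle : ∀ e : Dir, cn e t ω ≤ ∑ e : Dir, cn e t ω := fun e =>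
    Finset.single_le_sum (f := fun e => cn e t ω) (fun e _ => cn_nonneg e t ω) (Finset.mem_univ e)
  have hN := ht_le Dir.N ω t i hi
  have hS := ht_le Dir.S ω t i hi
  have hE := ht_le Dir.E ω t i hi
  have hW := ht_le Dir.W ω t i hi
  have lN := hle Dir.N
  have lS := hle Dir.S
  have lE := hle Dir.E
  have lW := hle Dir.W
  set v := (ray ω s0 i).1
  simp only [ht] at hN hS hE hW
  push_cast at hN hS hE hW
  have h1 : ((v.1.natAbs : ℕ) : ℝ) = |(v.1 : ℝ)| := by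
    rw [Nat.cast_natAbs]; push_cast; rfl
  have h2 : ((v.2.natAbs : ℕ) : ℝ) = |(v.2 : ℝ)| := by
    rw [Nat.cast_natAbs]; push_cast; rfl
  rw [nm, Nat.cast_max, h1, h2]
  refine max_le (abs_le.mpr ⟨?_, ?_⟩) (abs_le.mpr ⟨?_, ?_⟩) <;> linarith

lemma mx_le (ω : ℤ × ℤ → Fin 3) (t : ℕ) :
    (mx ω s0 t : ℝ) ≤ 1 + ∑ e : Dir, cn e t ω := by
  obtain ⟨i, hi, h⟩ := Finset.exists_mem_eq_sup (Finset.range (t + 1)) (by simp)
    (fun i => nm (ray ω s0 i).1)
  rw [mx, h]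
  exact nm_le ω t i (by simpa [Nat.lt_succ_iff] using hi)

end Emxx

open Emxx in
theorem thm_Emx (hQn : St_Qn) (hNm4 : St_Nm4) (hSum : St_Sum) : St_Emx := by
  intro p hp0 hp1
  obtain ⟨C, hC⟩ := hQn p hp0 hp1
  refine ⟨1 + 8 * |C|, fun t ht1 => ?_⟩
  have : IsProbabilityMeasure (mir p) := mir_isProb hp0.le hp1.le
  have hind : ∀ e m, Integrable ((Nw e m).indicator fun _ => (1 : ℝ)) (mir p) := fun e m =>
    (integrable_const (1 : ℝ)).indicator (meas_Nw e m)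
  have hcn : ∀ e, Integrable (cn e t) (mir p) := by
    intro e
    have : cn e t = ∑ m ∈ Finset.range t, (Nw e m).indicator fun _ => (1 : ℝ) := by
      ext ω
      simp [cn]
    rw [this]
    exact integrable_finsetSum' _ fun m _ => hind e m
  have hcn_int : ∀ e, ∫ ω, cn e t ω ∂(mir p) ≤ 2 * |C| * (t : ℝ) ^ (13 / 14 : ℝ) := by
    intro e
    have h1 : ∫ ω, cn e t ω ∂(mir p) = ∑ m ∈ Finset.range t, (mir p).real (Nw e m) := by
      simp only [cn]
      rw [integral_finsetSum _ fun m _ => hind e m]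
      refine Finset.sum_congr rfl fun m _ => ?_
      rw [integral_indicator_const (1 : ℝ) (meas_Nw e m)]
      simp
    rw [h1]
    have h2 : ∀ m ∈ Finset.range t, (mir p).real (Nw e m) ≤
        |C| * ((m : ℝ) + 1) ^ (-(1 / 14 : ℝ)) := by
      intro m _
      have h3 := hNm4 p hp0.le hp1.le e s0 m
      have h4 := hC m
      have h5 : C * ((m : ℝ) + 1) ^ (-(1 / 14 : ℝ)) ≤ |C| * ((m : ℝ) + 1) ^ (-(1 / 14 : ℝ)) :=
        mul_le_mul_of_nonneg_right (le_abs_self C) (by positivity)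
      exact (h3.trans h4).trans h5
    calc ∑ m ∈ Finset.range t, (mir p).real (Nw e m)
        ≤ ∑ m ∈ Finset.range t, |C| * ((m : ℝ) + 1) ^ (-(1 / 14 : ℝ)) := Finset.sum_le_sum h2
      _ = |C| * ∑ m ∈ Finset.range t, ((m : ℝ) + 1) ^ (-(1 / 14 : ℝ)) := by
          rw [Finset.mul_sum]
      _ ≤ |C| * (2 * (t : ℝ) ^ (13 / 14 : ℝ)) :=
          mul_le_mul_of_nonneg_left (hSum t) (abs_nonneg C)
      _ = 2 * |C| * (t : ℝ) ^ (13 / 14 : ℝ) := by ring
  have hmono : ∫ ω, (mx ω s0 t : ℝ) ∂(mir p) ≤ ∫ ω, (1 + ∑ e : Dir, cn e t ω) ∂(mir p) := by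
    refine integral_mono_of_nonneg (Eventually.of_forall fun ω => Nat.cast_nonneg _) ?_
      (Eventually.of_forall fun ω => mx_le ω t)
    exact (integrable_const (1 : ℝ)).add (integrable_finsetSum _ fun e _ => hcn e)
  have hsum : ∫ ω, (1 + ∑ e : Dir, cn e t ω) ∂(mir p) = 1 + ∑ e : Dir, ∫ ω, cn e t ω ∂(mir p) := by
    rw [integral_add (integrable_const (1 : ℝ)) (integrable_finsetSum _ fun e _ => hcn e),
      integral_finsetSum _ fun e _ => hcn e]
    simp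
  have h4 : ∑ e : Dir, ∫ ω, cn e t ω ∂(mir p) ≤ 8 * |C| * (t : ℝ) ^ (13 / 14 : ℝ) := by
    have hcard : (Finset.univ : Finset Dir).card = 4 := by decide
    calc ∑ e : Dir, ∫ ω, cn e t ω ∂(mir p)
        ≤ ∑ _e : Dir, 2 * |C| * (t : ℝ) ^ (13 / 14 : ℝ) := Finset.sum_le_sum fun e _ => hcn_int e
      _ = 8 * |C| * (t : ℝ) ^ (13 / 14 : ℝ) := by
          rw [Finset.sum_const, hcard, nsmul_eq_mul]
          push_cast
          ring
  have h5 : (1 : ℝ) ≤ (t : ℝ) ^ (13 / 14 : ℝ) :=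
    Real.one_le_rpow (by exact_mod_cast ht1) (by norm_num)
  calc ∫ ω, (mx ω s0 t : ℝ) ∂(mir p) ≤ 1 + ∑ e : Dir, ∫ ω, cn e t ω ∂(mir p) := hsum ▸ hmono
    _ ≤ 1 * (t : ℝ) ^ (13 / 14 : ℝ) + 8 * |C| * (t : ℝ) ^ (13 / 14 : ℝ) := by
        rw [one_mul]; exact add_le_add h5 h4
    _ = (1 + 8 * |C|) * (t : ℝ) ^ (13 / 14 : ℝ) := by ring

end Pool.Agent.MSB
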