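import Pool.Agent.MSB.St

/-!
# The mirror model is sub-ballistic, with a rate: the theorem (helper98)
-/

set_option autoImplicit false

open MeasureTheory Filter Mir

namespace Pool.Agent.MSB

theorem thm_Fin (h1 : St_Qn) (h2 : St_Emx) (h3 : St_Asy) : St_Fin := by
  intro p hp hp1
  exact ⟨h1 p hp hp1, h2 p hp hp1, fun a ha => h3 p hp hp1 a ha⟩

end Pool.Agent.MSB
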