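import Pool.Agent.MSB.St
import Pool.Agent.Mir.Prob

/-!
# New maxima of the four coordinates, by symmetry
-/

set_option autoImplicit false

open MeasureTheory Filter Mir

noncomputable section

namespace Pool.Agent.MSB

namespace Nm4x

/-- the event of a new maximum of the coordinate `e` at the time `n + 1` -/
def EV (e : Dir) (s : (ℤ × ℤ) × Dir) (n : ℕ) : Set (ℤ × ℤ → Fin 3) :=
  {ω | ∀ i ≤ n, ht e (ray ω s i).1 < ht e (ray ω s (n + 1)).1}

theorem meas_EV (e : Dir) (s : (ℤ × ℤ) × Dir) (n : ℕ) : MeasurableSet (EV e s n) := by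
  have hc := countable_state (A := ℤ)
  have h1 : ∀ i, MeasurableSet
      {ω : ℤ × ℤ → Fin 3 | ht e (ray ω s i).1 < ht e (ray ω s (n + 1)).1} := by
    intro i
    have : {ω : ℤ × ℤ → Fin 3 | ht e (ray ω s i).1 < ht e (ray ω s (n + 1)).1} =
        ⋃ u : (ℤ × ℤ) × Dir, ({ω | ray ω s (n + 1) = u} ∩ {ω | ht e (ray ω s i).1 < ht e u.1}) := by
      ext ω
      simp
    rw [this]
    refine MeasurableSet.iUnion fun u => ?_
    exact (meas_ray s u (n + 1)).inter (meas_ray_prop s i fun t => ht e t.1 < ht e u.1)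
  have : EV e s n = ⋂ i, ⋂ (_ : i ≤ n),
      {ω : ℤ × ℤ → Fin 3 | ht e (ray ω s i).1 < ht e (ray ω s (n + 1)).1} := by
    ext ω
    simp [EV]
  rw [this]
  exact MeasurableSet.iInter fun i => MeasurableSet.iInter fun _ => h1 i

theorem real_pre {p : ℝ} {f : (ℤ × ℤ → Fin 3) → (ℤ × ℤ → Fin 3)}
    (hf : MeasurePreserving f (mir p) (mir p)) {X Y : Set (ℤ × ℤ → Fin 3)}
    (hY : MeasurableSet Y) (h : X = f ⁻¹' Y) : (mir p).real X = (mir p).real Y := by
  rw [Measure.real, Measure.real, h, hf.measure_preimage hY.nullMeasurableSet]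

theorem evE (s : (ℤ × ℤ) × Dir) (n : ℕ) : EV .E s n = sw ⁻¹' (EV .N (swS s) n) := by
  ext ω
  simp only [EV, Set.mem_preimage, Set.mem_ofPred_eq, ray_sw]
  rfl

theorem evW (s : (ℤ × ℤ) × Dir) (n : ℕ) : EV .W s n = rf ⁻¹' (EV .E (rfS s) n) := by
  ext ω
  simp only [EV, Set.mem_preimage, Set.mem_ofPred_eq, ray_rf]
  rfl

theorem evS (s : (ℤ × ℤ) × Dir) (n : ℕ) : EV .S s n = sw ⁻¹' (EV .W (swS s) n) := by
  ext ω
  simp only [EV, Set.mem_preimage, Set.mem_ofPred_eq, ray_sw]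
  rfl

end Nm4x

open Nm4x in
theorem thm_Nm4 (h : St_Nmx) : St_Nm4 := by
  intro p h0 h1 e s n
  have hN : ∀ s, (mir p).real (EV .N s n) ≤ q p n := fun s => h p h0 h1 s n
  have hE : ∀ s, (mir p).real (EV .E s n) ≤ q p n := fun s => by
    rw [real_pre (sw_preserving h0 h1) (meas_EV .N (swS s) n) (evE s n)]
    exact hN _
  have hW : ∀ s, (mir p).real (EV .W s n) ≤ q p n := fun s => by
    rw [real_pre (rf_preserving h0 h1) (meas_EV .E (rfS s) n) (evW s n)]
    exact hE _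
  have hS : ∀ s, (mir p).real (EV .S s n) ≤ q p n := fun s => by
    rw [real_pre (sw_preserving h0 h1) (meas_EV .W (swS s) n) (evS s n)]
    exact hW _
  cases e
  · exact hN s
  · exact hE s
  · exact hS s
  · exact hW s

end Pool.Agent.MSB
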