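import Pool.Agent.MSB.St
import Pool.Agent.Mir.Prob

/-!
# New maxima of the height, by time reversal
-/

set_option autoImplicit false

open MeasureTheory Filter Mir

noncomputable section

namespace Pool.Agent.MSB

namespace Nmxx

/-- the start state of the reversed ray, translated to the origin -/
def r0 : (ℤ × ℤ) × Dir := ((0, -1), Dir.S)

/-- the ray from `r0` stays below height `0` up to time `n` -/
def H (n : ℕ) : Set (ℤ × ℤ → Fin 3) := {ω | ∀ j ≤ n, (ray ω r0 j).1.2 < 0}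

theorem meas_H (n : ℕ) : MeasurableSet (H n) := by
  have h : H n = ⋂ j, ⋂ (_ : j ≤ n), {ω | (ray ω r0 j).1.2 < 0} := by
    ext ω
    simp [H]
  rw [h]
  exact MeasurableSet.iInter fun j => MeasurableSet.iInter fun _ =>
    meas_ray_prop r0 j fun u => u.1.2 < 0

/-- the pieces, according to the last vertex `z` -/
def G (s : (ℤ × ℤ) × Dir) (n : ℕ) (z : ℤ × ℤ) : Set (ℤ × ℤ → Fin 3) :=
  H n ∩ {ω | ray ω r0 (n + 1) = trS (-z) (rev s)}

theorem meas_G (s : (ℤ × ℤ) × Dir) (n : ℕ) (z : ℤ × ℤ) : MeasurableSet (G s n z) :=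
  (meas_H n).inter (meas_ray _ _ _)

theorem disj_G (s : (ℤ × ℤ) × Dir) (n : ℕ) :
    Pairwise (Function.onFun Disjoint fun z => G s n z) := by
  intro z z' hz
  refine Set.disjoint_left.2 ?_
  rintro ω ⟨-, h1⟩ ⟨-, h2⟩
  apply hz
  have h3 : trS (-z) (rev s) = trS (-z') (rev s) := (show ray ω r0 (n + 1) = _ from h1).symm.trans h2
  have h4 : (rev s).1 + -z = (rev s).1 + -z' := congrArg Prod.fst h3
  exact neg_injective (add_left_cancel h4)

/-- the event, with last vertex `z` -/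
def Fz (s : (ℤ × ℤ) × Dir) (n : ℕ) (z : ℤ × ℤ) : Set (ℤ × ℤ → Fin 3) :=
  {ω | (∀ i ≤ n, (ray ω s i).1.2 < (ray ω s (n + 1)).1.2) ∧ (ray ω s (n + 1)).1 = z}

theorem sub_G (s : (ℤ × ℤ) × Dir) (n : ℕ) (z : ℤ × ℤ) : Fz s n z ⊆ tr (-z) ⁻¹' G s n z := by
  rintro ω ⟨h1, h2⟩
  -- the last direction is `N`
  have hN : (ray ω s (n + 1)).2 = Dir.N := by
    have h3 := ray_prev ω s n
    have h4 := h1 n le_rfl
    rw [← h3] at h4
    generalize (ray ω s (n + 1)).2 = d at h4
    cases d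
    · rfl
    · exfalso
      simp only [vec, Prod.snd_sub] at h4
      omega
    · exfalso
      simp only [vec, Prod.snd_sub] at h4
      omega
    · exfalso
      simp only [vec, Prod.snd_sub] at h4
      omega
  have hr : trS (-z) (rev (ray ω s (n + 1))) = r0 := by
    simp only [rev, trS, h2, hN, vec, Dir.opp, r0]
    refine Prod.ext ?_ rfl
    show z - (0, 1) + -z = (0, -1)
    refine Prod.ext ?_ ?_
    · show z.1 - 0 + -z.1 = 0
      ring
    · show z.2 - 1 + -z.2 = -1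
      ring
  have hj : ∀ j ≤ n + 1, ray (tr (-z) ω) r0 j = trS (-z) (rev (ray ω s (n + 1 - j))) := by
    intro j hj
    rw [← hr, ray_tr]
    have h3 := ray_rev ω s (n + 1 - j) j
    rw [Nat.sub_add_cancel hj] at h3
    rw [h3]
  refine ⟨?_, ?_⟩
  · intro j hjn
    rw [hj j (by omega)]
    have h3 : n + 1 - j = (n - j) + 1 := by omega
    rw [h3]
    have h4 : (rev (ray ω s (n - j + 1))).1 = (ray ω s (n - j)).1 := ray_prev ω s (n - j)
    have h5 := h1 (n - j) (by omega)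
    rw [h2] at h5
    show (rev (ray ω s (n - j + 1))).1.2 + -z.2 < 0
    rw [h4]
    omega
  · show ray (tr (-z) ω) r0 (n + 1) = trS (-z) (rev s)
    rw [hj (n + 1) le_rfl, Nat.sub_self, ray_zero]

/-- reflection at the horizontal axis -/
theorem q_eq {p : ℝ} (h0 : 0 ≤ p) (h1 : p ≤ 1) (n : ℕ) : q p n = (mir p).real (H n) := by
  have hm : MeasurePreserving (fun ω => sw (rf (sw ω))) (mir p) (mir p) :=
    (sw_preserving h0 h1).comp ((rf_preserving h0 h1).comp (sw_preserving h0 h1))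
  have hs : swS (rfS (swS s0)) = r0 := rfl
  have he : {ω : ℤ × ℤ → Fin 3 | ∀ i ≤ n, 1 ≤ (ray ω s0 i).1.2} =
      (fun ω => sw (rf (sw ω))) ⁻¹' H n := by
    ext ω
    show (∀ i ≤ n, 1 ≤ (ray ω s0 i).1.2) ↔ ∀ j ≤ n, (ray (sw (rf (sw ω))) r0 j).1.2 < 0
    refine forall₂_congr fun j _ => ?_
    rw [← hs, ray_sw, ray_rf, ray_sw]
    show 1 ≤ (ray ω s0 j).1.2 ↔ -(ray ω s0 j).1.2 < 0
    omega
  unfold q
  rw [he, Measure.real, Measure.real, hm.measure_preimage (meas_H n).nullMeasurableSet]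

end Nmxx

open Nmxx in
theorem thm_Nmx : St_Nmx := by
  intro p h0 h1 s n
  have hP := mir_isProb h0 h1
  rw [q_eq h0 h1 n]
  have hsub : {ω : ℤ × ℤ → Fin 3 | ∀ i ≤ n, (ray ω s i).1.2 < (ray ω s (n + 1)).1.2} ⊆
      ⋃ z, Fz s n z := by
    intro ω hω
    exact Set.mem_iUnion.2 ⟨(ray ω s (n + 1)).1, hω, rfl⟩
  have hle : mir p {ω : ℤ × ℤ → Fin 3 | ∀ i ≤ n, (ray ω s i).1.2 < (ray ω s (n + 1)).1.2} ≤
      mir p (H n) := by
    calc mir p {ω : ℤ × ℤ → Fin 3 | ∀ i ≤ n, (ray ω s i).1.2 < (ray ω s (n + 1)).1.2}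
        ≤ mir p (⋃ z, Fz s n z) := measure_mono hsub
      _ ≤ ∑' z, mir p (Fz s n z) := measure_iUnion_le _
      _ ≤ ∑' z, mir p (G s n z) := by
          refine ENNReal.tsum_le_tsum fun z => ?_
          rw [← (tr_preserving h0 h1 (-z)).measure_preimage (meas_G s n z).nullMeasurableSet]
          exact measure_mono (sub_G s n z)
      _ = mir p (⋃ z, G s n z) := (measure_iUnion (disj_G s n) (meas_G s n)).symm
      _ ≤ mir p (H n) := measure_mono (Set.iUnion_subset fun z => Set.inter_subset_left)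
  exact ENNReal.toReal_mono (measure_ne_top _ _) hle

end Pool.Agent.MSB
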