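import Pool.Agent.MSB.St
import Pool.Agent.Mir.Prob
import Pool.Agent.Mir.Det

/-!
# MSB, module Qn: no return to the starting line within `n` steps
-/

set_option autoImplicit false

open MeasureTheory Filter Mir

noncomputable section

namespace Pool.Agent.MSB

private theorem Qn_step (ω : ℤ × ℤ → Fin 3) (s : (ℤ × ℤ) × Dir) (n : ℕ) :
    (ray ω s (n + 1)).1.2 ≤ (ray ω s n).1.2 + 1 := by
  rw [ray_succ]
  have h : ∀ d : Dir, (vec d : ℤ × ℤ).2 ≤ 1 := by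
    intro d
    cases d <;> simp [vec]
  have h1 := h (turn (ω (ray ω s n).1) (ray ω s n).2)
  change ((ray ω s n).1 + vec (turn (ω (ray ω s n).1) (ray ω s n).2)).2 ≤ _
  rw [Prod.snd_add]
  linarith

private theorem Qn_ivt (y : ℕ → ℤ) (k : ℤ) (h0 : y 0 ≤ k) (hs : ∀ n, y (n + 1) ≤ y n + 1) (n : ℕ)
    (h : ¬ ∀ i ≤ n, y i ≤ k) : ∃ m ≤ n, y m = k := by
  classical
  push Not at h
  obtain ⟨i, hi, hik⟩ := h
  have hex : ∃ i, k < y i := ⟨i, hik⟩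
  have h1 := Nat.find_spec hex
  have h2 : Nat.find hex ≤ i := Nat.find_min' hex hik
  have h3 : Nat.find hex ≠ 0 := by
    intro h4
    rw [h4] at h1
    omega
  obtain ⟨m, hm⟩ := Nat.exists_eq_succ_of_ne_zero h3
  have h5 : ¬ k < y m := Nat.find_min hex (by omega)
  have h6 := hs m
  rw [hm] at h1
  refine ⟨m, by omega, ?_⟩
  have h7 : k < y (m + 1) := h1
  omega

theorem thm_Qn (hM : Mir.Stmt_main) (hS : St_Slb) : St_Qn := by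
  intro p hp0 hp1
  obtain ⟨C, hC⟩ := hM p hp0 hp1
  refine ⟨|C| + 8, fun n => ?_⟩
  have hprob : IsProbabilityMeasure (mir p) := mir_isProb hp0.le hp1.le
  have hN : (1 : ℝ) ≤ (n : ℝ) + 1 := by
    have : (0 : ℝ) ≤ n := Nat.cast_nonneg n
    linarith
  have hN0 : (0 : ℝ) < (n : ℝ) + 1 := by linarith
  set N : ℝ := (n : ℝ) + 1 with hNdef
  set k : ℕ := ⌈N ^ (13 / 14 : ℝ)⌉₊ with hkdef
  have hNp : (1 : ℝ) ≤ N ^ (13 / 14 : ℝ) := Real.one_le_rpow hN (by norm_num)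
  have hk1 : 1 ≤ k := Nat.one_le_ceil_iff.mpr (by linarith)
  have hkl : N ^ (13 / 14 : ℝ) ≤ k := Nat.le_ceil _
  have hku : (k : ℝ) ≤ 2 * N ^ (13 / 14 : ℝ) := by
    have h := Nat.ceil_lt_add_one (by linarith : (0 : ℝ) ≤ N ^ (13 / 14 : ℝ))
    have h' : (k : ℝ) < N ^ (13 / 14 : ℝ) + 1 := h
    linarith
  have hsub : {ω : ℤ × ℤ → Fin 3 | ∀ i ≤ n, 1 ≤ (ray ω s0 i).1.2} ⊆
      {ω | ∃ m, (ray ω ((0, 1), Dir.N) m).1.2 = k ∧
        ∀ i ≤ m, 1 ≤ (ray ω ((0, 1), Dir.N) i).1.2} ∪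
      {ω | ∀ i ≤ n, 1 ≤ (ray ω s0 i).1.2 ∧ (ray ω s0 i).1.2 ≤ k} := by
    intro ω hω
    by_cases h : ∀ i ≤ n, (ray ω s0 i).1.2 ≤ (k : ℤ)
    · right
      exact fun i hi => ⟨hω i hi, h i hi⟩
    · left
      obtain ⟨m, hm, hmk⟩ := Qn_ivt (fun i => (ray ω s0 i).1.2) k (by
        change (1 : ℤ) ≤ (k : ℤ)
        exact_mod_cast hk1) (fun j => Qn_step ω s0 j) n h
      exact ⟨m, hmk, fun i hi => hω i (hi.trans hm)⟩
  have h1 : q p n ≤ C * (k : ℝ) ^ (-(1 / 13 : ℝ)) + 4 * k / N := by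
    unfold q
    refine (measureReal_mono hsub).trans ((measureReal_union_le _ _).trans ?_)
    exact add_le_add (hC k hk1) (hS p hp0.le hp1.le k n)
  have hkpos : (0 : ℝ) < k := by exact_mod_cast hk1
  have h2 : C * (k : ℝ) ^ (-(1 / 13 : ℝ)) ≤ |C| * N ^ (-(1 / 14 : ℝ)) := by
    have h3 : (k : ℝ) ^ (-(1 / 13 : ℝ)) ≤ N ^ (-(1 / 14 : ℝ)) := by
      have h4 := Real.rpow_le_rpow_of_nonpos (by linarith : (0 : ℝ) < N ^ (13 / 14 : ℝ)) hkl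
        (by norm_num : (-(1 / 13 : ℝ)) ≤ 0)
      rw [← Real.rpow_mul hN0.le] at h4
      have h5 : (13 / 14 : ℝ) * (-(1 / 13)) = -(1 / 14) := by norm_num
      rwa [h5] at h4
    calc C * (k : ℝ) ^ (-(1 / 13 : ℝ)) ≤ |C| * (k : ℝ) ^ (-(1 / 13 : ℝ)) :=
          mul_le_mul_of_nonneg_right (le_abs_self C) (Real.rpow_nonneg hkpos.le _)
      _ ≤ |C| * N ^ (-(1 / 14 : ℝ)) := mul_le_mul_of_nonneg_left h3 (abs_nonneg C)
  have h6 : 4 * (k : ℝ) / N ≤ 8 * N ^ (-(1 / 14 : ℝ)) := by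
    have h7 : N ^ (-(1 / 14 : ℝ)) = N ^ (13 / 14 : ℝ) / N := by
      have h8 : (-(1 / 14 : ℝ)) = 13 / 14 - 1 := by norm_num
      rw [h8, Real.rpow_sub hN0, Real.rpow_one]
    rw [h7, ← mul_div_assoc]
    apply div_le_div_of_nonneg_right _ hN0.le
    linarith
  calc q p n ≤ C * (k : ℝ) ^ (-(1 / 13 : ℝ)) + 4 * k / N := h1
    _ ≤ |C| * N ^ (-(1 / 14 : ℝ)) + 8 * N ^ (-(1 / 14 : ℝ)) := add_le_add h2 h6
    _ = (|C| + 8) * N ^ (-(1 / 14 : ℝ)) := by ring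

end Pool.Agent.MSB
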