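import Pool.Agent.MSB.St
import Pool.Agent.Mir.Prob

/-!
# MSB Slb: time spent in a slab (mass transport)
-/

set_option autoImplicit false

open MeasureTheory Filter Mir

noncomputable section

namespace Pool.Agent.MSB

namespace Slbx

/-- the event that the ray from `((-a, 1), N)` stays in the slab up to time `i` and is then in the
state `((0, b), d)` -/
def F (k : ℕ) (b : ℤ) (d : Dir) (i : ℕ) (a : ℤ) : Set (ℤ × ℤ → Fin 3) :=
  {ω | (∀ j ≤ i, 1 ≤ (ray ω ((-a, 1), Dir.N) j).1.2 ∧ (ray ω ((-a, 1), Dir.N) j).1.2 ≤ (k : ℤ)) ∧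
    ray ω ((-a, 1), Dir.N) i = ((0, b), d)}

/-- the event that the ray from `s0` stays in the slab up to time `i` -/
def D (k : ℕ) (i : ℕ) : Set (ℤ × ℤ → Fin 3) :=
  {ω | ∀ j ≤ i, 1 ≤ (ray ω s0 j).1.2 ∧ (ray ω s0 j).1.2 ≤ (k : ℤ)}

theorem meas_stay (s : (ℤ × ℤ) × Dir) (k i : ℕ) : MeasurableSet {ω : ℤ × ℤ → Fin 3 | ∀ j ≤ i,
    1 ≤ (ray ω s j).1.2 ∧ (ray ω s j).1.2 ≤ (k : ℤ)} := by
  have h : {ω : ℤ × ℤ → Fin 3 | ∀ j ≤ i, 1 ≤ (ray ω s j).1.2 ∧ (ray ω s j).1.2 ≤ (k : ℤ)} =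
      ⋂ j, ⋂ (_ : j ≤ i), {ω : ℤ × ℤ → Fin 3 | 1 ≤ (ray ω s j).1.2 ∧
        (ray ω s j).1.2 ≤ (k : ℤ)} := by
    ext ω
    simp
  rw [h]
  exact MeasurableSet.iInter fun j => MeasurableSet.iInter fun _ =>
    meas_ray_prop s j (fun t => 1 ≤ t.1.2 ∧ t.1.2 ≤ (k : ℤ))

theorem meas_F (k : ℕ) (b : ℤ) (d : Dir) (i : ℕ) (a : ℤ) : MeasurableSet (F k b d i a) :=
  (meas_stay _ k i).inter (meas_ray _ _ i)

theorem F_aux {k : ℕ} {b : ℤ} {d : Dir} {i i' : ℕ} {a a' : ℤ} {ω : ℤ × ℤ → Fin 3}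
    (h : ω ∈ F k b d i a) (h' : ω ∈ F k b d i' a') (hi : i ≤ i') : i = i' ∧ a = a' := by
  have h1 : ray ω ((-a, 1), Dir.N) i = ray ω (ray ω ((-a', 1), Dir.N) (i' - i)) i := by
    rw [← ray_add, Nat.sub_add_cancel hi, h.2, h'.2]
  have h2 := ray_inj ω i h1
  rcases Nat.eq_zero_or_pos (i' - i) with h3 | h3
  · rw [h3] at h2
    have h4 : ((-a, 1) : ℤ × ℤ) = (-a', 1) := congrArg Prod.fst h2
    have h5 : -a = -a' := congrArg Prod.fst h4
    exact ⟨by omega, by omega⟩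
  · exfalso
    obtain ⟨m, hm⟩ : ∃ m, i' - i = m + 1 := ⟨i' - i - 1, by omega⟩
    rw [hm] at h2
    have h4 := ray_prev ω ((-a', 1), Dir.N) m
    rw [← h2] at h4
    have h5 : (((-a, 1) : ℤ × ℤ) - vec Dir.N).2 = (ray ω ((-a', 1), Dir.N) m).1.2 :=
      congrArg Prod.snd h4
    have h6 : (((-a, 1) : ℤ × ℤ) - vec Dir.N).2 = 0 := by simp [vec]
    have h7 := (h'.1 m (by omega)).1
    omega

theorem F_disj (k : ℕ) (b : ℤ) (d : Dir) :
    Pairwise (Function.onFun Disjoint fun x : ℕ × ℤ => F k b d x.1 x.2) := by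
  rintro ⟨i, a⟩ ⟨i', a'⟩ hne
  refine Set.disjoint_left.2 fun ω h h' => hne ?_
  rcases le_total i i' with hi | hi
  · obtain ⟨h1, h2⟩ := F_aux h h' hi
    exact Prod.ext h1 h2
  · obtain ⟨h1, h2⟩ := F_aux h' h hi
    exact Prod.ext h1.symm h2.symm

theorem sum_F {p : ℝ} (h0 : 0 ≤ p) (h1 : p ≤ 1) (k : ℕ) (b : ℤ) (d : Dir) (n : ℕ) :
    ∑ i ∈ Finset.range (n + 1), ∑' a : ℤ, mir p (F k b d i a) ≤ 1 := by
  have := mir_isProb h0 h1
  calc ∑ i ∈ Finset.range (n + 1), ∑' a : ℤ, mir p (F k b d i a)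
      ≤ ∑' i : ℕ, ∑' a : ℤ, mir p (F k b d i a) := ENNReal.sum_le_tsum _
    _ = ∑' x : ℕ × ℤ, mir p (F k b d x.1 x.2) :=
        (ENNReal.tsum_prod (f := fun i a => mir p (F k b d i a))).symm
    _ = mir p (⋃ x : ℕ × ℤ, F k b d x.1 x.2) :=
        (measure_iUnion (F_disj k b d) fun x => meas_F k b d x.1 x.2).symm
    _ ≤ 1 := prob_le_one

theorem shift {p : ℝ} (h0 : 0 ≤ p) (h1 : p ≤ 1) (k : ℕ) (b : ℤ) (d : Dir) (i : ℕ) (a : ℤ) :
    mir p (D k i ∩ {ω | ray ω s0 i = ((a, b), d)}) = mir p (F k b d i a) := by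
  have h2 := (tr_preserving h0 h1 ((-a, 0) : ℤ × ℤ)).measure_preimage
    (meas_F k b d i a).nullMeasurableSet
  rw [← h2]
  congr 1
  ext ω
  have h3 : ∀ j, ray (tr (-a, 0) ω) ((-a, 1), Dir.N) j = trS (-a, 0) (ray ω s0 j) := by
    intro j
    rw [← ray_tr]
    congr 1
    simp [trS]
  constructor
  · rintro ⟨h4, h5⟩
    refine ⟨fun j hj => ?_, ?_⟩
    · rw [h3 j]
      have h6 := h4 j hj
      simpa [trS] using h6
    · rw [h3 i]
      have h6 : ray ω s0 i = ((a, b), d) := h5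
      rw [h6]
      simp [trS]
  · rintro ⟨h4, h5⟩
    refine ⟨fun j hj => ?_, ?_⟩
    · have h6 := h4 j hj
      rw [h3 j] at h6
      simpa [trS] using h6
    · rw [h3 i] at h5
      show ray ω s0 i = ((a, b), d)
      rcases hr : ray ω s0 i with ⟨⟨x, y⟩, e⟩
      rw [hr] at h5
      simp only [trS, Prod.mk_add_mk, Prod.mk.injEq] at h5
      obtain ⟨⟨h7, h8⟩, h9⟩ := h5
      rw [h9]
      have h10 : x = a := by omega
      have h11 : y = b := by omega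
      rw [h10, h11]

theorem D_le {p : ℝ} (h0 : 0 ≤ p) (h1 : p ≤ 1) (k i : ℕ) :
    mir p (D k i) ≤ ∑ x ∈ (Finset.Icc (1 : ℤ) k) ×ˢ (Finset.univ : Finset Dir),
      ∑' a : ℤ, mir p (F k x.1 x.2 i a) := by
  have h2 : D k i ⊆ ⋃ x ∈ (Finset.Icc (1 : ℤ) k) ×ˢ (Finset.univ : Finset Dir),
      ⋃ a : ℤ, D k i ∩ {ω | ray ω s0 i = ((a, x.1), x.2)} := by
    intro ω hω
    have h3 := hω i le_rfl
    simp only [Set.mem_iUnion]
    refine ⟨((ray ω s0 i).1.2, (ray ω s0 i).2), ?_, (ray ω s0 i).1.1, hω, rfl⟩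
    rw [Finset.mem_product]
    exact ⟨Finset.mem_Icc.2 h3, Finset.mem_univ _⟩
  refine (measure_mono h2).trans ((measure_biUnion_finset_le _ _).trans ?_)
  apply Finset.sum_le_sum
  intro x _
  refine (measure_iUnion_le _).trans ?_
  apply le_of_eq
  congr 1
  funext a
  exact shift h0 h1 k x.1 x.2 i a

end Slbx

open Slbx in
theorem thm_Slb : St_Slb := by
  intro p h0 h1 k n
  have hP := mir_isProb h0 h1
  have h2 : ∑ i ∈ Finset.range (n + 1), mir p (D k i) ≤ ((4 * k : ℕ) : ENNReal) := by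
    calc ∑ i ∈ Finset.range (n + 1), mir p (D k i)
        ≤ ∑ i ∈ Finset.range (n + 1),
          ∑ x ∈ (Finset.Icc (1 : ℤ) k) ×ˢ (Finset.univ : Finset Dir),
            ∑' a : ℤ, mir p (F k x.1 x.2 i a) :=
          Finset.sum_le_sum fun i _ => D_le h0 h1 k i
      _ = ∑ x ∈ (Finset.Icc (1 : ℤ) k) ×ˢ (Finset.univ : Finset Dir),
          ∑ i ∈ Finset.range (n + 1), ∑' a : ℤ, mir p (F k x.1 x.2 i a) := Finset.sum_comm
      _ ≤ ∑ _x ∈ (Finset.Icc (1 : ℤ) k) ×ˢ (Finset.univ : Finset Dir), (1 : ENNReal) :=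
          Finset.sum_le_sum fun x _ => sum_F h0 h1 k x.1 x.2 n
      _ = ((4 * k : ℕ) : ENNReal) := by
          rw [Finset.sum_const, nsmul_eq_mul, mul_one, Finset.card_product, Int.card_Icc]
          have h3 : (Finset.univ : Finset Dir).card = 4 := rfl
          rw [h3]
          congr 1
          have h4 : ((k : ℤ) + 1 - 1).toNat = k := by simp
          rw [h4, mul_comm]
  have h3 : ((n + 1 : ℕ) : ENNReal) * mir p (D k n) ≤ ((4 * k : ℕ) : ENNReal) := by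
    refine le_trans ?_ h2
    have h4 : ((n + 1 : ℕ) : ENNReal) * mir p (D k n) =
        ∑ _i ∈ Finset.range (n + 1), mir p (D k n) := by
      rw [Finset.sum_const, nsmul_eq_mul, Finset.card_range]
    rw [h4]
    apply Finset.sum_le_sum
    intro i hi
    apply measure_mono
    intro ω hω j hj
    have h5 : i < n + 1 := Finset.mem_range.1 hi
    exact hω j (by omega)
  have h4 : ((n : ℝ) + 1) * (mir p).real (D k n) ≤ 4 * k := by
    have h5 := ENNReal.toReal_mono (ENNReal.natCast_ne_top _) h3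
    rw [ENNReal.toReal_mul, ENNReal.toReal_natCast, ENNReal.toReal_natCast] at h5
    push_cast at h5
    exact h5
  show (mir p).real (D k n) ≤ 4 * k / (n + 1)
  rw [le_div_iff₀ (by positivity), mul_comm]
  exact h4

end Pool.Agent.MSB
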