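import Pool.Agent.Mir.Stmts

/-!
# The mirror model is sub-ballistic, with a rate: statements of the modules (architect helper98)

Problem MP_b6bbcf_pr. Library: `Pool/Agent/Mir` (`Defs.lean`: the model; `Det.lean`: `ray_succ`, `ray_add`, `ray_rev`,
`ray_prev`, `ray_inj`, `rev_rev`; `Prob.lean`: `mir_isProb`, `meas_ray`, `meas_ray_prop`, `tr_preserving`, `ray_tr`,
`rf_preserving`, `ray_rf`, `sw_preserving`, `ray_sw`, `countable_state`). A state `((x, y), d)` means: the ray arrives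
at the vertex `(x, y)` in the direction `d`; `ray ω s n` is the state after `n` steps; `mir p` is the law of the
configuration `ω`. `Stmt_main` (proved in `Mir/Main.lean`): the ray from `s0` reaches height `k` before it returns to
height `0` with probability at most `C k ^ (-1/13)`.

Module `X` proves `theorem thm_X (h.. : St_..) : St_X` in `Pool/Agent/MSB/X.lean`, namespace `Pool.Agent.MSB`, auxiliary lemmas
private or in the namespace `Pool.Agent.MSB.Xx`.

Plan. (`Slb`) mass transport: the ray stays in a slab of height `k` for `n` steps with probability at most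
`4 k / (n + 1)`. (`Qn`) so `q p n`, the probability that the ray does not return to the starting line within `n` steps, is at
most `C (n + 1) ^ (-1/14)`. (`Nmx`, `Nm4`) by time reversal a step is a new maximum of the height (of `±x`, `±y`) with
probability at most `q p n`. (`Emx`) So the mean of the maximal displacement up to time `t` is at most `C t ^ (13/14)`.
(`Asy`) almost sure statement by Borel-Cantelli.
-/

set_option autoImplicit false

open MeasureTheory Filter Mir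

noncomputable section

namespace Pool.Agent.MSB

/-- the state of the ray of the problem after its first step, from the origin to `(0, 1)` -/
abbrev s0 : (ℤ × ℤ) × Dir := ((0, 1), Dir.N)

/-- the probability that the ray does not return to the starting line within `n` steps (after the first one) -/
def q (p : ℝ) (n : ℕ) : ℝ := (mir p).real {ω | ∀ i ≤ n, 1 ≤ (ray ω s0 i).1.2}

/-- the coordinate of a vertex in the direction `e` -/
def ht (e : Dir) (v : ℤ × ℤ) : ℤ :=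
  match e with
  | .N => v.2
  | .S => -v.2
  | .E => v.1
  | .W => -v.1

/-- sup-norm of a vertex -/
def nm (v : ℤ × ℤ) : ℕ := max v.1.natAbs v.2.natAbs

/-- the largest sup-norm of the vertices which the ray from `s` visits in the steps `0, ..., t` -/
def mx (ω : ℤ × ℤ → Fin 3) (s : (ℤ × ℤ) × Dir) (t : ℕ) : ℕ :=
  (Finset.range (t + 1)).sup fun i => nm (ray ω s i).1

/-- **Slb** (2 h). Time spent in a slab.

Proof. Let `D i = {ω | ∀ j ≤ i, 1 ≤ y_j ≤ k}`, `y_j = (ray ω s0 j).1.2`; `D n ⊆ D i` for `i ≤ n`, so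
`(n + 1) P(D n) ≤ ∑ i ≤ n, P(D i)`. Decompose `D i` according to `ray ω s0 i = ((a, b), d)`, where `1 ≤ b ≤ k`: `P(D i) =
∑ (b, d), ∑ a : ℤ, P(D i, ray ω s0 i = ((a, b), d))`, and by translation by `(-a, 0)` (`tr_preserving`, `ray_tr`) the summand
is the probability of `F a i = {ω | ∀ j ≤ i, 1 ≤ height of ray ω ((-a, 1), N) j ≤ k, ray ω ((-a, 1), N) i = ((0, b), d)}`. For fixed
`(b, d)` the events `F a i` (`a ∈ ℤ`, `i ≤ n`) are pairwise disjoint: let `ω ∈ F a i ∩ F a' i'`, `i ≤ i'`. `ray_add` and `ray_inj`: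
`ray ω ((-a, 1), N) i = ray ω ((-a', 1), N) i' = ray ω (ray ω ((-a', 1), N) (i' - i)) i`, so `((-a, 1), N) = ray ω ((-a', 1), N) (i' - i)`.
If `i' = i` then `a = a'`. Otherwise the vertex `ray ω ((-a', 1), N) (i' - i - 1)` is `(-a, 1) - vec N = (-a, 0)` (`ray_prev`), of height
`0 < 1`, a contradiction. So `∑ i ≤ n, ∑ a, P(F a i) ≤ 1` for each of the `4 k` pairs `(b, d)`. (Work in `ℝ≥0∞` with
`measure_iUnion`, or prove the bound for all finite sets of `a` and use `tsum`.) -/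
def St_Slb : Prop := ∀ p : ℝ, 0 ≤ p → p ≤ 1 → ∀ k n : ℕ,
  (mir p).real {ω | ∀ i ≤ n, 1 ≤ (ray ω s0 i).1.2 ∧ (ray ω s0 i).1.2 ≤ k} ≤ 4 * k / (n + 1)

/-- **Qn** (1 h). No return to the starting line; from `Stmt_main` and `St_Slb`.

Proof. `k = ⌈(n + 1) ^ (13/14)⌉₊ ≥ 1`, `(n + 1) ^ (13/14) ≤ k ≤ 2 (n + 1) ^ (13/14)`. If `1 ≤ y_i` for all `i ≤ n`, then either
`y_i = k` for some `i ≤ n` (event of `Stmt_main`), or `y_i ≤ k` for all `i ≤ n` (discrete intermediate values: `y_0 = 1 ≤ k`, a step changes the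
height by at most `1`; if some `y_i > k` then some earlier one is `= k`). So
`q p n ≤ C k ^ (-1/13) + 4 k / (n + 1) ≤ |C| (n + 1) ^ (-1/14) + 8 (n + 1) ^ (-1/14)`. -/
def St_Qn : Prop := ∀ p : ℝ, 0 < p → p < 1 → ∃ C : ℝ, ∀ n : ℕ,
  q p n ≤ C * ((n : ℝ) + 1) ^ (-(1 / 14 : ℝ))

/-- **Nmx** (2 h). New maxima of the height.

Proof. Let `F` be the event, `s = (v, d)`. On `F` the last step goes up: `ray ω s (n + 1) = ((a, b), N)` for some `a, b`. So
`P(F) = ∑ (a, b), P(F, ray ω s (n + 1) = ((a, b), N))`. Put `t = ((a, b), N)`, `rev t = ((a, b - 1), S)`. By `ray_rev` (`m = n + 1 - j`)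
`ray ω (rev t) j = rev (ray ω s (n + 1 - j))` for `j ≤ n + 1`; by `ray_prev` its vertex is that of `ray ω s (n - j)` for `j ≤ n`, so
its height is `< b`, and `ray ω (rev t) (n + 1) = rev s`. Translate by `z = (-a, -b)`: the summand is at most the probability of
`G (a, b) = {ω | (∀ j ≤ n, height of ray ω ((0, -1), S) j < 0) ∧ ray ω ((0, -1), S) (n + 1) = trS (-a, -b) (rev s)}`. These events are
pairwise disjoint, so `P(F) ≤ P(∀ j ≤ n, height of ray ω ((0, -1), S) j < 0) = q p n`, the last equality by the reflection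
`y ↦ -y`, that is `sw ∘ rf ∘ sw` (`swS (rfS (swS ((0, -1), S))) = s0`). -/
def St_Nmx : Prop := ∀ p : ℝ, 0 ≤ p → p ≤ 1 → ∀ (s : (ℤ × ℤ) × Dir) (n : ℕ),
  (mir p).real {ω | ∀ i ≤ n, (ray ω s i).1.2 < (ray ω s (n + 1)).1.2} ≤ q p n

/-- **Nm4** (1 h). New maxima of the four coordinates; from `St_Nmx`.

Proof. `e = N` is `St_Nmx`. `ht E v = ht N (v.2, v.1)`: apply `St_Nmx` to `swS s` and use `sw_preserving`, `ray_sw`. `ht W v = ht E (-v.1, v.2)`:
`rf_preserving`, `ray_rf`. `ht S v = ht W (v.2, v.1)`: `sw` again. -/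
def St_Nm4 : Prop := ∀ p : ℝ, 0 ≤ p → p ≤ 1 → ∀ (e : Dir) (s : (ℤ × ℤ) × Dir) (n : ℕ),
  (mir p).real {ω | ∀ i ≤ n, ht e (ray ω s i).1 < ht e (ray ω s (n + 1)).1} ≤ q p n

/-- **Sum** (1 h). Proof. `(m + 1) ^ (-1/14) ≤ 2 ((m + 1) ^ (13/14) - m ^ (13/14))`: with `x = m / (m + 1) ∈ [0, 1)`,
`(m + 1) ^ (13/14) - m ^ (13/14) = (m + 1) ^ (13/14) (1 - x ^ (13/14))` and `1 - x ^ (13/14) ≥ (13/14) (1 - x) = (13/14) / (m + 1)`
(Bernoulli: `Real.rpow_one_add_le_one_add_mul_self` or `Real.one_add_mul_self_le_rpow_one_add` and variants, or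
`x ^ (13/14) ≤ 13/14 x + 1/14`, weighted AM-GM `Real.geom_mean_le_arith_mean2_weighted`). Telescoping sum. -/
def St_Sum : Prop := ∀ t : ℕ,
  ∑ m ∈ Finset.range t, ((m : ℝ) + 1) ^ (-(1 / 14 : ℝ)) ≤ 2 * (t : ℝ) ^ (13 / 14 : ℝ)

/-- **Emx** (2 h). The mean maximal displacement; from `St_Qn`, `St_Nm4`, `St_Sum`.

Proof. For a direction `e` let `U e t = (range (t + 1)).sup fun i => (ht e (ray ω s0 i).1 - ht e (0, 1)).toNat`. A step changes `ht e` by at most
`1`, so `U e (m + 1) ≤ U e m + 1`, and `U e (m + 1) = U e m` unless `ht e` at time `m + 1` is larger than at all times `i ≤ m`. So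
`U e t ≤ ∑ m < t, 1_{new maximum at m + 1}` and `∫ U e t ≤ ∑ m < t, q p m ≤ 2 C t ^ (13/14)` (`U e t` is measurable: it is a function of finitely many ray
states, `meas_ray_prop`; bounded by `t`). Finally `nm (ray ω s0 i).1 ≤ 1 + ∑ e, U e t` for `i ≤ t`, so
`∫ mx ω s0 t ≤ 1 + 8 C t ^ (13/14) ≤ (1 + 8 |C|) t ^ (13/14)` for `t ≥ 1`. -/
def St_Emx : Prop := ∀ p : ℝ, 0 < p → p < 1 → ∃ C : ℝ, ∀ t : ℕ, 1 ≤ t →
  ∫ ω, (mx ω s0 t : ℝ) ∂(mir p) ≤ C * (t : ℝ) ^ (13 / 14 : ℝ)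

/-- **Asy** (1.5 h). Almost sure statement; from `St_Emx`.

Proof. Let `13/14 < b < a`. Markov's inequality (`mul_meas_ge_le_integral_of_nonneg`; `mx` is bounded by `t + 1`, measurable by `meas_ray_prop`, so
integrable): `P(mx ω s0 (2 ^ j) ≥ 2 ^ (j b)) ≤ C 2 ^ (j (13/14 - b))`, summable, so by Borel-Cantelli
(`measure_limsup_atTop_eq_zero` / `ae_eventually_notMem`) almost surely `mx ω s0 (2 ^ j) < 2 ^ (j b)` for all large `j`. For `n ≥ 1` let
`2 ^ j` be the smallest power of `2` which is `≥ n`, `2 ^ j < 2 n`: `nm (ray ω s0 n).1 ≤ mx ω s0 (2 ^ j) ≤ (2 n) ^ b`, and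
`(2 n) ^ b / n ^ a → 0`. -/
def St_Asy : Prop := ∀ p : ℝ, 0 < p → p < 1 → ∀ a : ℝ, 13 / 14 < a → ∀ᵐ ω ∂(mir p),
  Tendsto (fun n : ℕ => (nm (ray ω s0 n).1 : ℝ) / (n : ℝ) ^ a) atTop (nhds 0)

/-- **Fin** (helper98). The theorem. -/
def St_Fin : Prop := ∀ p : ℝ, 0 < p → p < 1 →
  (∃ C : ℝ, ∀ n : ℕ, q p n ≤ C * ((n : ℝ) + 1) ^ (-(1 / 14 : ℝ))) ∧
  (∃ C : ℝ, ∀ t : ℕ, 1 ≤ t → ∫ ω, (mx ω s0 t : ℝ) ∂(mir p) ≤ C * (t : ℝ) ^ (13 / 14 : ℝ)) ∧
  ∀ a : ℝ, 13 / 14 < a → ∀ᵐ ω ∂(mir p),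
    Tendsto (fun n : ℕ => (nm (ray ω s0 n).1 : ℝ) / (n : ℝ) ^ a) atTop (nhds 0)

end Pool.Agent.MSB
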