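import Pool.Agent.MSB.St

/-!
Module Sum of project MSB: an elementary sum of powers.
-/

set_option autoImplicit false

namespace Pool.Agent.MSB

theorem Sumx.step (t : ℝ) (ht : 0 ≤ t) :
    2 * t ^ (13 / 14 : ℝ) + (t + 1) ^ (-(1 / 14 : ℝ)) ≤ 2 * (t + 1) ^ (13 / 14 : ℝ) := by
  have hy : 0 < t + 1 := by linarith
  have hz : 0 < (t + 1) ^ (1 / 14 : ℝ) := Real.rpow_pos_of_pos hy _
  have h1 := Real.geom_mean_le_arith_mean2_weighted (w₁ := 13 / 14) (w₂ := 1 / 14) (p₁ := t)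
    (p₂ := t + 1) (by norm_num) (by norm_num) ht hy.le (by norm_num)
  have h2 : (t + 1) ^ (-(1 / 14 : ℝ)) = ((t + 1) ^ (1 / 14 : ℝ))⁻¹ := Real.rpow_neg hy.le _
  have h3 : (t + 1) ^ (13 / 14 : ℝ) * (t + 1) ^ (1 / 14 : ℝ) = t + 1 := by
    rw [← Real.rpow_add hy]
    norm_num
  have h4 : (2 * t ^ (13 / 14 : ℝ) + (t + 1) ^ (-(1 / 14 : ℝ))) * (t + 1) ^ (1 / 14 : ℝ) ≤
      (2 * (t + 1) ^ (13 / 14 : ℝ)) * (t + 1) ^ (1 / 14 : ℝ) := by
    rw [h2, add_mul, inv_mul_cancel₀ hz.ne']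
    nlinarith
  exact le_of_mul_le_mul_right h4 hz

theorem thm_Sum : St_Sum := by
  intro t
  induction t with
  | zero => simp
  | succ t ih =>
    rw [Finset.sum_range_succ]
    have h := Sumx.step (t : ℝ) (Nat.cast_nonneg t)
    have e : ((t + 1 : ℕ) : ℝ) = (t : ℝ) + 1 := by push_cast; ring
    rw [e]
    linarith

end Pool.Agent.MSB
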